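import Pool.Agent.W841.PK.Stm2
import Pool.Agent.W841.PK.Api

/-! Structure of the peeling process. -/

set_option autoImplicit false

namespace W305.PK

open Finset W841.PK
open scoped Classical symmDiff

noncomputable section

variable {n : ℕ}

/-- degree of a non-planted vertex -/
theorem deg_non {G : SimpleGraph (Fin n)} {S R : Finset (Fin n)} {a : Fin n} (ha : a ∈ R)
    (haS : a ∉ S) :
    2 * (dg (plant G S) R a : ℝ) = (R.card : ℝ) - 1 + ∑ b ∈ R, ee G a b := by
  unfold dg
  rw [if_pos ha, Finset.card_filter]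
  push_cast
  rw [Finset.mul_sum]
  have h1 : ∀ b ∈ R, (2 : ℝ) * (if (plant G S).Adj a b then 1 else 0) =
      (if a = b then 0 else 1) + ee G a b := by
    intro b _
    by_cases hab : a = b
    · subst hab
      simp [ee]
    · have : (plant G S).Adj a b ↔ G.Adj a b := by
        unfold plant
        constructor
        · rintro ⟨_, h | h⟩
          · exact h
          · exact absurd h.1 haS
        · intro h
          exact ⟨hab, Or.inl h⟩
      by_cases hG : G.Adj a b
      · simp [ee, hab, this, hG]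
        norm_num
      · simp [ee, hab, this, hG]
  rw [Finset.sum_congr rfl h1, Finset.sum_add_distrib]
  congr 1
  have h2 : ∀ b ∈ R, (if a = b then (0 : ℝ) else 1) = 1 - (if a = b then 1 else 0) := by
    intro b _
    split_ifs <;> norm_num
  rw [Finset.sum_congr rfl h2, Finset.sum_sub_distrib]
  simp [ha]

/-- degree of a planted vertex -/
theorem deg_pl {G : SimpleGraph (Fin n)} {S R : Finset (Fin n)} {a : Fin n} (ha : a ∈ R)
    (haS : a ∈ S) :
    2 * (dg (plant G S) R a : ℝ) = 2 * (((R ∩ S).card : ℝ) - 1) + ((R \ S).card : ℝ) +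
      ∑ b ∈ R \ S, ee G a b := by
  unfold dg
  rw [if_pos ha, Finset.card_filter]
  push_cast
  rw [Finset.mul_sum]
  have hR : R = (R ∩ S) ∪ (R \ S) := by
    ext b
    simp only [mem_union, mem_inter, mem_sdiff]
    tauto
  have hd : Disjoint (R ∩ S) (R \ S) := by
    rw [Finset.disjoint_left]
    intro b hb hb'
    exact (mem_sdiff.1 hb').2 (mem_inter.1 hb).2
  conv_lhs => rw [hR]
  rw [Finset.sum_union hd]
  have h1 : ∀ b ∈ R ∩ S, (2 : ℝ) * (if (plant G S).Adj a b then 1 else 0) =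
      2 * (1 - (if a = b then 1 else 0)) := by
    intro b hb
    have hbS := (mem_inter.1 hb).2
    by_cases hab : a = b
    · subst hab
      simp
    · have : (plant G S).Adj a b := ⟨hab, Or.inr ⟨haS, hbS⟩⟩
      simp [hab, this]
  have h2 : ∀ b ∈ R \ S, (2 : ℝ) * (if (plant G S).Adj a b then 1 else 0) = 1 + ee G a b := by
    intro b hb
    have hbS := (mem_sdiff.1 hb).2
    have hab : a ≠ b := fun h => hbS (h ▸ haS)
    have : (plant G S).Adj a b ↔ G.Adj a b := by
      unfold plant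
      constructor
      · rintro ⟨_, h | h⟩
        · exact h
        · exact absurd h.2 hbS
      · intro h
        exact ⟨hab, Or.inl h⟩
    by_cases hG : G.Adj a b
    · simp [ee, hab, this, hG]
      norm_num
    · simp [ee, hab, this, hG]
  rw [Finset.sum_congr rfl h1, Finset.sum_congr rfl h2, Finset.sum_add_distrib, ← Finset.mul_sum,
    Finset.sum_sub_distrib]
  have h3 : ∑ b ∈ R ∩ S, (if a = b then (1 : ℝ) else 0) = 1 := by
    rw [Finset.sum_ite_eq]
    simp [ha, haS]
  rw [h3]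
  simp
  ring

section proc

variable (S : Finset (Fin n)) (ρ : Rule n) (t : ℕ) (G : SimpleGraph (Fin n))

theorem ww_mem (hρ : IsRule ρ) (h : (RR S ρ t G).Nonempty) : ww S ρ t G ∈ RR S ρ t G :=
  (hρ _ _ h).1

theorem card_RR (hρ : IsRule ρ) : t ≤ n → (RR S ρ t G).card = n - t := by
  induction t with
  | zero => intro _; simp [RR_zero]
  | succ t ih =>
    intro h
    have h1 := ih (by omega)
    have hne : (RR S ρ t G).Nonempty := by
      rw [← Finset.card_pos]
      omega
    rw [RR_succ, Finset.card_erase_of_mem (ww_mem S ρ t G hρ hne), h1]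
    omega

theorem RR_nonempty (hρ : IsRule ρ) (h : t < n) : (RR S ρ t G).Nonempty := by
  rw [← Finset.card_pos, card_RR S ρ t G hρ h.le]
  omega

theorem RR_empty (hρ : IsRule ρ) (h : n ≤ t) : RR S ρ t G = ∅ := by
  have h1 : RR S ρ n G = ∅ := by
    rw [← Finset.card_eq_zero, card_RR S ρ n G hρ le_rfl]
    omega
  have h2 := RR_anti S ρ G h
  rw [h1] at h2
  exact Finset.subset_empty.1 h2

theorem Xt_deg {a : Fin n} (ha : a ∈ RR S ρ t G) (haS : a ∉ S) :
    Xt S ρ t G a = 2 * (dg (plant G S) (RR S ρ t G) a : ℝ) - (((RR S ρ t G).card : ℝ) - 1) := by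
  have := deg_non (G := G) ha haS
  unfold Xt
  linarith

theorem Xn_deg {a : Fin n} (ha : a ∈ RR S ρ t G) (haS : a ∈ S) :
    Xn S ρ t G a = 2 * (dg (plant G S) (RR S ρ t G) a : ℝ) - 2 * ((ss S ρ t G : ℝ) - 1) -
      (rr S ρ t G : ℝ) := by
  have := deg_pl (G := G) ha haS
  unfold Xn rr ss SS NN
  linarith

theorem min_dg (hρ : IsRule ρ) {a : Fin n} (ha : a ∈ RR S ρ t G) :
    dg (plant G S) (RR S ρ t G) (ww S ρ t G) ≤ dg (plant G S) (RR S ρ t G) a :=
  (hρ (RR S ρ t G) (dg (plant G S) (RR S ρ t G)) ⟨a, ha⟩).2 a ha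

theorem Xt_le (hρ : IsRule ρ) (hw : ww S ρ t G ∉ S) {a : Fin n} (ha : a ∈ NN S ρ t G) :
    Xt S ρ t G (ww S ρ t G) ≤ Xt S ρ t G a := by
  have haR := NN_sub S ρ t G ha
  have haS : a ∉ S := (mem_sdiff.1 ha).2
  rw [Xt_deg S ρ t G haR haS, Xt_deg S ρ t G (ww_mem S ρ t G hρ ⟨a, haR⟩) hw]
  have h : (dg (plant G S) (RR S ρ t G) (ww S ρ t G) : ℝ) ≤ dg (plant G S) (RR S ρ t G) a := by
    exact_mod_cast min_dg S ρ t G hρ haR
  linarith

theorem Xt_le_Xb (hρ : IsRule ρ) (hw : ww S ρ t G ∉ S) (hne : (NN S ρ t G).Nonempty) :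
    Xt S ρ t G (ww S ρ t G) ≤ Xb S ρ t G := by
  unfold Xb
  have hpos : (0 : ℝ) < (rr S ρ t G : ℝ) := by
    unfold rr
    exact_mod_cast Finset.card_pos.2 hne
  rw [le_div_iff₀ hpos]
  have h1 : ∑ _a ∈ NN S ρ t G, Xt S ρ t G (ww S ρ t G) ≤ ∑ a ∈ NN S ρ t G, Xt S ρ t G a :=
    Finset.sum_le_sum fun a ha => Xt_le S ρ t G hρ hw ha
  rw [Finset.sum_const, nsmul_eq_mul] at h1
  unfold rr
  linarith

end proc

theorem basic : S_Basic := by
  intro n S ρ t G hρ
  refine ⟨card_RR S ρ t G hρ, fun h => ww_mem S ρ t G hρ (RR_nonempty S ρ t G hρ h), ?_, ?_, ?_⟩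
  · intro h hw
    have hwR := ww_mem S ρ t G hρ (RR_nonempty S ρ t G hρ h)
    have hwN : ww S ρ t G ∈ NN S ρ t G := mem_sdiff.2 ⟨hwR, hw⟩
    have hNN : NN S ρ (t + 1) G = (NN S ρ t G).erase (ww S ρ t G) := by
      unfold NN
      rw [RR_succ]
      ext a
      simp only [mem_sdiff, mem_erase]
      tauto
    refine ⟨hwN, hNN, ?_, ?_, fun a ha => Xt_le S ρ t G hρ hw ha,
      Xt_le_Xb S ρ t G hρ hw ⟨_, hwN⟩⟩
    · unfold rr
      rw [hNN]
      exact Finset.card_erase_add_one hwN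
    · unfold SS
      rw [RR_succ]
      ext a
      simp only [mem_inter, mem_erase]
      constructor
      · rintro ⟨⟨_, h2⟩, h3⟩
        exact ⟨h2, h3⟩
      · rintro ⟨h2, h3⟩
        exact ⟨⟨fun h4 => hw (h4 ▸ h3), h2⟩, h3⟩
  · intro h hw
    have hwR := ww_mem S ρ t G hρ (RR_nonempty S ρ t G hρ h)
    have hNN : NN S ρ (t + 1) G = NN S ρ t G := by
      unfold NN
      rw [RR_succ]
      ext a
      simp only [mem_sdiff, mem_erase]
      constructor
      · rintro ⟨⟨_, h2⟩, h3⟩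
        exact ⟨h2, h3⟩
      · rintro ⟨h2, h3⟩
        exact ⟨⟨fun h4 => h3 (h4 ▸ hw), h2⟩, h3⟩
    refine ⟨mem_inter.2 ⟨hwR, hw⟩, ?_, hNN, ?_, ?_⟩
    · unfold SS
      rw [RR_succ]
      ext a
      simp only [mem_inter, mem_erase]
      tauto
    · unfold rr
      rw [hNN]
    · intro a ha
      have haR := NN_sub S ρ t G ha
      have haS : a ∉ S := (mem_sdiff.1 ha).2
      unfold Xs
      rw [if_pos hw, Xt_deg S ρ t G haR haS, Xn_deg S ρ t G hwR hw]
      have h1 : (dg (plant G S) (RR S ρ t G) (ww S ρ t G) : ℝ) ≤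
          dg (plant G S) (RR S ρ t G) a := by
        exact_mod_cast min_dg S ρ t G hρ haR
      have h2 : ((RR S ρ t G).card : ℝ) = (rr S ρ t G : ℝ) + (ss S ρ t G : ℝ) := by
        have := rr_add_ss S ρ t G
        rw [← this]
        push_cast
        ring
      rw [h2]
      linarith
  · show cc S ρ t G + _ ≤ cc S ρ t G
    split_ifs with hw
    · linarith
    · have key : √(n : ℝ) * (Xt S ρ t G (ww S ρ t G) - Xb S ρ t G) /
          ((rr S ρ t G : ℝ) * ((rr S ρ t G : ℝ) - 1)) ≤ 0 := by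
        by_cases h : t < n
        · have hwR := ww_mem S ρ t G hρ (RR_nonempty S ρ t G hρ h)
          have hwN : ww S ρ t G ∈ NN S ρ t G := mem_sdiff.2 ⟨hwR, hw⟩
          have h1 := Xt_le_Xb S ρ t G hρ hw ⟨_, hwN⟩
          have h2 : (1 : ℝ) ≤ (rr S ρ t G : ℝ) := by
            unfold rr
            exact_mod_cast Finset.card_pos.2 ⟨_, hwN⟩
          apply div_nonpos_of_nonpos_of_nonneg
          · exact mul_nonpos_of_nonneg_of_nonpos (Real.sqrt_nonneg _) (by linarith)
          · exact mul_nonneg (by linarith) (by linarith)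
        · have h1 : rr S ρ t G = 0 := by
            unfold rr NN
            rw [RR_empty S ρ t G hρ (by omega)]
            simp
          rw [h1]
          simp
      linarith

end

end W305.PK
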