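import Pool.Agent.W305.PK.Kill

/-! Conclusion from the certificate at time `256`. -/

set_option autoImplicit false

namespace W305.PK

open Finset W841.PK
open scoped Classical symmDiff

noncomputable section

section det

variable {n : ℕ} (S : Finset (Fin n)) (ρ : Rule n) (t : ℕ) (G : SimpleGraph (Fin n))

theorem NN_anti {i j : ℕ} (h : i ≤ j) : NN S ρ j G ⊆ NN S ρ i G :=
  sdiff_subset_sdiff (RR_anti S ρ G h) (Subset.refl _)

theorem SS_anti {i j : ℕ} (h : i ≤ j) : SS S ρ j G ⊆ SS S ρ i G :=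
  inter_subset_inter (RR_anti S ρ G h) (Subset.refl _)

theorem rr_anti {i j : ℕ} (h : i ≤ j) : rr S ρ j G ≤ rr S ρ i G :=
  card_le_card (NN_anti S ρ G h)

theorem NN_succ : NN S ρ (t + 1) G = (NN S ρ t G).erase (ww S ρ t G) := by
  unfold NN
  rw [RR_succ]
  ext a
  simp only [mem_sdiff, mem_erase]
  tauto

theorem SS_succ : SS S ρ (t + 1) G = (SS S ρ t G).erase (ww S ρ t G) := by
  unfold SS
  rw [RR_succ]
  ext a
  simp only [mem_inter, mem_erase]
  tauto

theorem rr_succ_ge : rr S ρ t G ≤ rr S ρ (t + 1) G + 1 := by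
  unfold rr
  rw [NN_succ]
  have := Finset.pred_card_le_card_erase (s := NN S ρ t G) (a := ww S ρ t G)
  omega

theorem SS_succ_non (hw : ww S ρ t G ∉ S) : SS S ρ (t + 1) G = SS S ρ t G := by
  rw [SS_succ]
  apply Finset.erase_eq_of_notMem
  intro h
  exact hw (mem_inter.1 h).2

theorem NN_succ_pl (hw : ww S ρ t G ∈ S) : NN S ρ (t + 1) G = NN S ρ t G := by
  rw [NN_succ]
  apply Finset.erase_eq_of_notMem
  intro h
  exact (mem_sdiff.1 h).2 hw

theorem Xn_same {i j : ℕ} (h : rr S ρ i G = rr S ρ j G) (a : Fin n) :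
    Xn S ρ i G a = Xn S ρ j G a := by
  have key : NN S ρ i G = NN S ρ j G := by
    rcases le_total i j with hij | hij
    · exact (Finset.eq_of_subset_of_card_le (NN_anti S ρ G hij) (le_of_eq h)).symm
    · exact Finset.eq_of_subset_of_card_le (NN_anti S ρ G hij) (le_of_eq h.symm)
  unfold Xn
  rw [key]

theorem rr_end (hb : S_Basic) (hρ : IsRule ρ) (h : n ≤ t) : rr S ρ t G = 0 := by
  have h0 := (hb n S ρ n G hρ).1 le_rfl
  have h1 : RR S ρ n G = ∅ := by
    rw [← Finset.card_eq_zero, h0]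
    omega
  have h2 := rr_anti S ρ G h
  have h3 : rr S ρ n G = 0 := by
    unfold rr NN
    rw [h1]
    simp
  omega

theorem rr_start : rr S ρ 0 G = n - S.card := by
  unfold rr NN
  rw [RR_zero, Finset.card_sdiff_of_subset (subset_univ _)]
  simp

theorem cc_nonpos (hb : S_Basic) (hρ : IsRule ρ) : cc S ρ t G ≤ 0 := by
  induction t with
  | zero => exact le_of_eq rfl
  | succ t ih => exact ((hb n S ρ t G hρ).2.2.2.2).trans ih

theorem exists_rr (hb : S_Basic) (hρ : IsRule ρ) {r : ℕ} (hr : r ≤ n - S.card) :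
    ∃ t, rr S ρ t G = r ∧ ∀ i < t, r < rr S ρ i G := by
  have hex : ∃ t, rr S ρ t G ≤ r := ⟨n, by rw [rr_end S ρ n G hb hρ le_rfl]; omega⟩
  refine ⟨Nat.find hex, ?_, fun i hi => ?_⟩
  · have h1 := Nat.find_spec hex
    apply le_antisymm h1
    rcases Nat.eq_zero_or_pos (Nat.find hex) with h0 | h0
    · rw [h0, rr_start]
      exact hr
    · have h2 : ¬ rr S ρ (Nat.find hex - 1) G ≤ r := Nat.find_min hex (by omega)
      have h3 := rr_succ_ge S ρ (Nat.find hex - 1) G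
      rw [Nat.sub_add_cancel h0] at h3
      omega
  · have := Nat.find_min hex hi
    omega

/-- the times counted in `S_P2` -/
def ctd (r1 r2 : ℕ) : Finset ℕ :=
  (range n).filter (fun t => ww S ρ t G ∈ S ∧ r2 ≤ rr S ρ t G ∧
      rr S ρ t G ≤ r1 ∧
      √(n : ℝ) / (rr S ρ t G : ℝ) * Xn S ρ t G (ww S ρ t G) ≤
        -(1 / 5) * n / ((rr S ρ t G : ℝ) - 1) ∧
      (∀ j, rr S ρ j G = r1 → -32 ≤ √(n : ℝ) / r1 * Xn S ρ j G (ww S ρ t G)))

/-- removals down to `r2` -/
theorem claim1 (hρ : IsRule ρ) (hb : S_Basic) {r1 r2 t1 : ℕ} (ht1 : rr S ρ t1 G = r1)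
    (hr2 : 1 ≤ r2) {U0 : Finset (Fin n)}
    (hU0 : ∀ a ∈ U0, -32 ≤ √(n : ℝ) / r1 * Xn S ρ t1 G a)
    (hU0S : U0 ⊆ SS S ρ t1 G) {q : ℝ} (hU0c : 0.549 * q ≤ (U0.card : ℝ))
    (hcnt : ((ctd S ρ G r1 r2).card : ℝ) < 0.015 * q)
    (hq : 0 ≤ q)
    (hkill : ∀ t < n, ww S ρ t G ∈ S → r2 ≤ rr S ρ t G → rr S ρ t G ≤ r1 →
      0.53 * q ≤ (ss S ρ t G : ℝ) →
      √(n : ℝ) / (rr S ρ t G : ℝ) * Xn S ρ t G (ww S ρ t G) ≤
        -(1 / 5) * n / ((rr S ρ t G : ℝ) - 1)) :
    ∀ t, t1 ≤ t → r2 ≤ rr S ρ t G →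
      U0.card ≤ (U0 ∩ SS S ρ t G).card + ((ctd S ρ G r1 r2).filter (fun i => i < t)).card := by
  intro t ht
  induction t, ht using Nat.le_induction with
  | base =>
    intro _
    rw [Finset.inter_eq_left.2 hU0S]
    omega
  | succ t ht ih =>
    intro hr
    have hrt : r2 ≤ rr S ρ t G := hr.trans (rr_anti S ρ G (Nat.le_succ t))
    have hrt1 : rr S ρ t G ≤ r1 := by
      rw [← ht1]
      exact rr_anti S ρ G ht
    have htn : t < n := by
      by_contra h
      rw [rr_end S ρ t G hb hρ (by omega)] at hrt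
      omega
    have ih' := ih hrt
    have hle : ((ctd S ρ G r1 r2).filter (fun i => i < t)).card ≤
        ((ctd S ρ G r1 r2).filter (fun i => i < t + 1)).card := by
      apply card_le_card
      intro i hi
      rw [mem_filter] at hi ⊢
      exact ⟨hi.1, by omega⟩
    by_cases hw : ww S ρ t G ∈ U0
    · have hwS : ww S ρ t G ∈ S := (mem_inter.1 (hU0S hw)).2
      have hss : 0.53 * q ≤ (ss S ρ t G : ℝ) := by
        have h1 : (U0.card : ℝ) ≤ ((U0 ∩ SS S ρ t G).card : ℝ) +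
            (((ctd S ρ G r1 r2).filter (fun i => i < t)).card : ℝ) := by exact_mod_cast ih'
        have h2 : (((ctd S ρ G r1 r2).filter (fun i => i < t)).card : ℝ) ≤
            ((ctd S ρ G r1 r2).card : ℝ) := by exact_mod_cast card_le_card (filter_subset _ _)
        have h3 : ((U0 ∩ SS S ρ t G).card : ℝ) ≤ (ss S ρ t G : ℝ) := by
          exact_mod_cast card_le_card inter_subset_right
        linarith
      have hk := hkill t htn hwS hrt hrt1 hss
      have hmem : t ∈ ctd S ρ G r1 r2 := by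
        unfold ctd
        rw [mem_filter]
        refine ⟨mem_range.2 htn, hwS, hrt, hrt1, hk, fun j hj => ?_⟩
        rw [Xn_same S ρ G (hj.trans ht1.symm)]
        exact hU0 _ hw
      have h4 : ((ctd S ρ G r1 r2).filter (fun i => i < t)).card + 1 ≤
          ((ctd S ρ G r1 r2).filter (fun i => i < t + 1)).card := by
        have hnot : t ∉ (ctd S ρ G r1 r2).filter (fun i => i < t) := by
          rw [mem_filter]
          rintro ⟨_, h⟩
          exact lt_irrefl _ h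
        rw [← Finset.card_insert_of_notMem hnot]
        apply card_le_card
        intro i hi
        rw [mem_insert] at hi
        rcases hi with rfl | hi
        · exact mem_filter.2 ⟨hmem, Nat.lt_succ_self _⟩
        · rw [mem_filter] at hi ⊢
          exact ⟨hi.1, by omega⟩
      have h5 : (U0 ∩ SS S ρ t G).card ≤ (U0 ∩ SS S ρ (t + 1) G).card + 1 := by
        rw [SS_succ]
        have h6 : U0 ∩ (SS S ρ t G).erase (ww S ρ t G) = (U0 ∩ SS S ρ t G).erase (ww S ρ t G) := by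
          ext a
          simp only [mem_inter, mem_erase]
          tauto
        rw [h6]
        have := Finset.pred_card_le_card_erase (s := U0 ∩ SS S ρ t G) (a := ww S ρ t G)
        omega
      omega
    · have h5 : U0 ∩ SS S ρ (t + 1) G = U0 ∩ SS S ρ t G := by
        rw [SS_succ]
        ext a
        simp only [mem_inter, mem_erase]
        constructor
        · rintro ⟨h1, -, h3⟩
          exact ⟨h1, h3⟩
        · rintro ⟨h1, h3⟩
          exact ⟨h1, fun h => hw (h ▸ h1), h3⟩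
      rw [h5]
      omega

/-- removals down to zero -/
theorem claim2 (hρ : IsRule ρ) (hb : S_Basic) {r2 t1 : ℕ} {q : ℝ} (hq : 0 ≤ q)
    (h0 : 0.534 * q ≤ (ss S ρ t1 G : ℝ))
    (h1 : ∀ t, t1 ≤ t → r2 ≤ rr S ρ t G → 0.534 * q ≤ (ss S ρ t G : ℝ))
    (hek : ∀ t < n, ww S ρ t G ∈ S → 1 ≤ rr S ρ t G → rr S ρ t G < r2 →
      (ss S ρ t G : ℝ) < 0.53 * q) :
    ∀ t, t1 ≤ t → (∀ i < t, 1 ≤ rr S ρ i G) → 0.534 * q ≤ (ss S ρ t G : ℝ) := by
  intro t ht
  induction t, ht using Nat.le_induction with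
  | base =>
    intro _
    exact h0
  | succ t ht ih =>
    intro hr
    have ih' := ih fun i hi => hr i (by omega)
    have hrt := hr t (Nat.lt_succ_self t)
    have htn : t < n := by
      by_contra h
      rw [rr_end S ρ t G hb hρ (by omega)] at hrt
      omega
    by_cases h2 : r2 ≤ rr S ρ (t + 1) G
    · exact h1 (t + 1) (by omega) h2
    · have hw : ww S ρ t G ∉ S := by
        intro hw
        by_cases h3 : r2 ≤ rr S ρ t G
        · have h4 : rr S ρ (t + 1) G = rr S ρ t G := by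
            unfold rr
            rw [NN_succ_pl S ρ t G hw]
          omega
        · have h4 := hek t htn hw hrt (by omega)
          nlinarith
      have h5 : ss S ρ (t + 1) G = ss S ρ t G := by
        unfold ss
        rw [SS_succ_non S ρ t G hw]
      rw [h5]
      exact ih'

/-- the conclusion once enough planted vertices remain -/
theorem claim3 (hρ : IsRule ρ) (hb : S_Basic) {t1 : ℕ} (ht1 : 1 ≤ rr S ρ t1 G)
    (h : ∀ t, t1 ≤ t → (∀ i < t, 1 ≤ rr S ρ i G) → 0 < ss S ρ t G) :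
    Succ ρ (plant G S) S := by
  obtain ⟨T0, hT0, hT0'⟩ := exists_rr S ρ G hb hρ (Nat.zero_le _)
  have h1 : t1 ≤ T0 := by
    by_contra hlt
    have := rr_anti S ρ G (le_of_lt (not_le.1 hlt))
    omega
  have h2 := h T0 h1 (fun i hi => hT0' i hi)
  have h3 : RR S ρ T0 G = SS S ρ T0 G := by
    have h4 : NN S ρ T0 G = ∅ := Finset.card_eq_zero.1 hT0
    rw [← SS_union_NN, h4, Finset.union_empty]
  have hcl : IsCl (plant G S) (Rs ρ (plant G S) T0) := by
    intro a ha b hb' hab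
    have ha' : a ∈ RR S ρ T0 G := ha
    have hb'' : b ∈ RR S ρ T0 G := hb'
    rw [h3] at ha' hb''
    exact ⟨hab, Or.inr ⟨(mem_inter.1 ha').2, (mem_inter.1 hb'').2⟩⟩
  have hex : ∃ t, IsCl (plant G S) (Rs ρ (plant G S) t) := ⟨T0, hcl⟩
  refine ⟨Nat.find hex, Nat.find_spec hex, fun i hi => Nat.find_min hex hi, ?_⟩
  have h5 : Nat.find hex ≤ T0 := Nat.find_min' hex hcl
  obtain ⟨v, hv⟩ := Finset.card_pos.1 h2
  have hv' := SS_anti S ρ G h5 hv
  exact ⟨v, (mem_inter.1 hv').1, (mem_inter.1 hv').2⟩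

end det

theorem rv256 {n : ℕ} (hn : 4 ≤ n) : rv n 256 = ⌊(n : ℝ) / 256⌋₊ := by
  unfold rv
  rw [min_eq_left]
  have h1 : ⌊(n : ℝ) / 256⌋₊ ≤ n / 2 := by
    apply Nat.floor_le_of_le
    have : ((n : ℝ) - 1) / 2 ≤ ((n / 2 : ℕ) : ℝ) := by
      have h : n ≤ 2 * (n / 2) + 1 := by omega
      have h' : (n : ℝ) ≤ 2 * ((n / 2 : ℕ) : ℝ) + 1 := by exact_mod_cast h
      linarith
    have h4 : (4 : ℝ) ≤ n := by exact_mod_cast hn
    linarith
  have h2 : Nat.sqrt n ≤ n / 2 := by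
    have h3 := Nat.sqrt_le' n
    have h5 : 2 ≤ Nat.sqrt n := Nat.le_sqrt'.2 (by omega)
    rw [Nat.le_div_iff_mul_le (by norm_num)]
    nlinarith
  omega

/-- the deterministic part -/
theorem det_part (hb : S_Basic) (hk : S_KillThr) (hek : S_EndKill) (C : ℝ) (hC : 1 ≤ C) :
    ∃ n0 : ℕ, ∀ n ≥ n0, ∀ (S : Finset (Fin n)) (ρ : Rule n) (G : SimpleGraph (Fin n)),
      S.card = Nat.sqrt n → IsRule ρ → PRev C G → SEok G → HEok S G →
      (∀ t, rr S ρ t G = rv n 256 → 0.549 * √(n : ℝ) ≤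
        (((SS S ρ t G).filter (fun a => -32 ≤ zz S ρ t G a)).card : ℝ)) →
      ((ctd S ρ G (rv n 256) ⌈(1 / 100 : ℝ) * √(n : ℝ)⌉₊).card : ℝ) < 0.015 * √(n : ℝ) →
      Succ ρ (plant G S) S := by
  obtain ⟨n1, h1⟩ := hk C hC
  obtain ⟨n2, h2⟩ := hek
  refine ⟨max (max n1 n2) (10 ^ 8), fun n hn S ρ G hS hρ hPR hSE hHE hE1 hE3 => ?_⟩
  have hn1 : n1 ≤ n := (le_max_left _ _).trans ((le_max_left _ _).trans hn)
  have hn2 : n2 ≤ n := (le_max_right _ _).trans ((le_max_left _ _).trans hn)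
  have hn8 : 10 ^ 8 ≤ n := (le_max_right _ _).trans hn
  have hn8' : (10 : ℝ) ^ 8 ≤ n := by exact_mod_cast hn8
  have hrv := rv256 (n := n) (by omega)
  set r1 := rv n 256 with hr1
  set q : ℝ := √(n : ℝ) with hq
  have hq4 : (10 : ℝ) ^ 4 ≤ q := by
    apply Real.le_sqrt_of_sq_le
    linarith
  have hr1le : (r1 : ℝ) ≤ (n : ℝ) / 256 := by
    rw [hrv]
    exact Nat.floor_le (by positivity)
  have hr1ge : (n : ℝ) / 256 - 1 < r1 := by
    rw [hrv]
    have := Nat.lt_floor_add_one ((n : ℝ) / 256)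
    linarith
  have hr1n : r1 ≤ n - S.card := by
    rw [hS, hr1]
    exact min_le_right _ _
  obtain ⟨t1, ht1, -⟩ := exists_rr S ρ G hb hρ hr1n
  set r2 := ⌈(1 / 100 : ℝ) * q⌉₊ with hr2
  have hr2pos : 1 ≤ r2 := Nat.one_le_ceil_iff.2 (by linarith)
  have hr1pos : (0 : ℝ) < r1 := by linarith
  have hkill : ∀ t < n, ww S ρ t G ∈ S → r2 ≤ rr S ρ t G → rr S ρ t G ≤ r1 →
      0.53 * q ≤ (ss S ρ t G : ℝ) →
      q / (rr S ρ t G : ℝ) * Xn S ρ t G (ww S ρ t G) ≤
        -(1 / 5) * n / ((rr S ρ t G : ℝ) - 1) := by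
    intro t ht hw ha hb' hs
    apply h1 n hn1 S ρ t G hS hρ hPR hSE ht hw
    · exact Nat.ceil_le.1 ha
    · have : (rr S ρ t G : ℝ) ≤ r1 := by exact_mod_cast hb'
      exact this.trans hr1le
    · linarith
  have hend : ∀ t < n, ww S ρ t G ∈ S → 1 ≤ rr S ρ t G → rr S ρ t G < r2 →
      (ss S ρ t G : ℝ) < 0.53 * q := by
    intro t ht hw ha hb'
    have h3 : (rr S ρ t G : ℝ) ≤ 1 / 100 * q := (Nat.lt_ceil.1 hb').le
    have := h2 n hn2 S ρ t G hS hρ hHE ht hw ha h3
    linarith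
  set U0 := (SS S ρ t1 G).filter (fun a => -32 ≤ zz S ρ t1 G a) with hU0
  have hU0c := hE1 t1 ht1
  rw [← hU0] at hU0c
  have hU0z : ∀ a ∈ U0, -32 ≤ q / r1 * Xn S ρ t1 G a := by
    intro a ha
    obtain ⟨haS, haz⟩ := mem_filter.1 ha
    have haS' : a ∈ S := (mem_inter.1 haS).2
    unfold zz at haz
    have hXs : Xs S ρ t1 G a = Xn S ρ t1 G a := by
      unfold Xs
      rw [if_pos haS']
    rw [hXs, ht1] at haz
    have := cc_nonpos S ρ t1 G hb hρ
    linarith
  have hU0S : U0 ⊆ SS S ρ t1 G := filter_subset _ _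
  have hc1 := claim1 S ρ G hρ hb ht1 hr2pos hU0z hU0S hU0c hE3 (by linarith) hkill
  have hc1' : ∀ t, t1 ≤ t → r2 ≤ rr S ρ t G → 0.534 * q ≤ (ss S ρ t G : ℝ) := by
    intro t ht hr
    have h3 := hc1 t ht hr
    have h4 : (U0.card : ℝ) ≤ ((U0 ∩ SS S ρ t G).card : ℝ) +
        (((ctd S ρ G r1 r2).filter (fun i => i < t)).card : ℝ) := by exact_mod_cast h3
    have h5 : (((ctd S ρ G r1 r2).filter (fun i => i < t)).card : ℝ) ≤
        ((ctd S ρ G r1 r2).card : ℝ) := by exact_mod_cast card_le_card (filter_subset _ _)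
    have h6 : ((U0 ∩ SS S ρ t G).card : ℝ) ≤ (ss S ρ t G : ℝ) := by
      exact_mod_cast card_le_card inter_subset_right
    linarith
  have hss1 : 0.534 * q ≤ (ss S ρ t1 G : ℝ) := by
    have h6 : (U0.card : ℝ) ≤ (ss S ρ t1 G : ℝ) := by exact_mod_cast card_le_card hU0S
    linarith
  have hc2 := claim2 S ρ G hρ hb (by linarith) hss1 hc1' hend
  refine claim3 S ρ G hρ hb (t1 := t1) ?_ fun t ht hr => ?_
  · rw [ht1]
    exact_mod_cast hr1pos
  · have h3 := hc2 t ht hr
    have h4 : (0 : ℝ) < (ss S ρ t G : ℝ) := by linarith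
    exact_mod_cast h4

theorem endthm (hb : S_Basic) (hpr : S_PR) (hse : S_SE) (hhe : S_HE) (hk : S_KillThr)
    (hek : S_EndKill) (hp2 : S_P2) : S_End := by
  intro g hg hg32
  obtain ⟨C, hC, n1, h1⟩ := hpr 1
  obtain ⟨n2, h2⟩ := hse (1 / 200) (1 / 100) (by norm_num) (by norm_num)
  obtain ⟨n3, h3⟩ := hhe (1 / 200) (by norm_num)
  obtain ⟨n4, h4⟩ := hg (-32) (1 / 1000) (by norm_num) (1 / 100) (by norm_num)
  obtain ⟨n5, h5⟩ := det_part hb hk hek C hC
  refine ⟨max (max (max n1 n2) (max n3 n4)) (max n5 (10 ^ 8)), fun n hn S ρ hS hρ => ?_⟩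
  have hn1 : n1 ≤ n := (le_max_left _ _).trans ((le_max_left _ _).trans ((le_max_left _ _).trans hn))
  have hn2 : n2 ≤ n := (le_max_right _ _).trans ((le_max_left _ _).trans ((le_max_left _ _).trans hn))
  have hn3 : n3 ≤ n := (le_max_left _ _).trans ((le_max_right _ _).trans ((le_max_left _ _).trans hn))
  have hn4 : n4 ≤ n := (le_max_right _ _).trans ((le_max_right _ _).trans ((le_max_left _ _).trans hn))
  have hn5 : n5 ≤ n := (le_max_left _ _).trans ((le_max_right _ _).trans hn)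
  have hn8 : 10 ^ 8 ≤ n := (le_max_right _ _).trans ((le_max_right _ _).trans hn)
  have hn8' : (10 : ℝ) ^ 8 ≤ n := by exact_mod_cast hn8
  have hrv := rv256 (n := n) (by omega)
  have e1 := h1 n hn1
  have e2 := h2 n hn2
  have e3 := h3 n hn3 S hS
  have e4 := h4 n hn4 S ρ hS hρ
  have e5 := h5 n hn5 S ρ
  set r1 := rv n 256 with hr1
  set q : ℝ := √(n : ℝ) with hq
  set r2 := ⌈(1 / 100 : ℝ) * q⌉₊ with hr2
  have hq4 : (10 : ℝ) ^ 4 ≤ q := by
    apply Real.le_sqrt_of_sq_le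
    linarith
  have hqn : q ^ 2 = n := Real.sq_sqrt (by positivity)
  have hr1le : (r1 : ℝ) ≤ (n : ℝ) / 256 := by
    rw [hrv]
    exact Nat.floor_le (by positivity)
  have hr1ge : (n : ℝ) / 256 - 1 < r1 := by
    rw [hrv]
    have := Nat.lt_floor_add_one ((n : ℝ) / 256)
    linarith
  have hr1n : r1 ≤ n - S.card := by
    rw [hS, hr1]
    exact min_le_right _ _
  have hr2two : 2 ≤ r2 := by
    have : (1 : ℝ) < (1 / 100 : ℝ) * q := by linarith
    have h' : 1 < r2 := Nat.lt_ceil.2 (by exact_mod_cast this)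
    exact h'
  have hr21 : r2 ≤ r1 := by
    apply Nat.ceil_le.2
    have : (1 / 100 : ℝ) * q ≤ (n : ℝ) / 256 - 1 := by
      rw [← hqn]
      nlinarith
    linarith
  -- the counting event
  have e6 := hp2 n S ρ r1 r2 (1 / 5) 32 hρ (by omega) hr2two hr21 hr1n (by norm_num)
  have e6' : Ex (fun G => ((ctd S ρ G r1 r2).card : ℝ)) ≤ q * (1 / 1000) := by
    refine le_trans (le_of_eq (Ex_congr fun G => ?_)) (e6.trans ?_)
    · rfl
    · have hexp : Real.exp (2 * (1 / 5) * 32 - 2 * (1 / 5) ^ 2 * (n : ℝ) / ((r1 : ℝ) - 1)) ≤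
          1 / 1000 := by
        have hx : 2 * (1 / 5) * 32 - 2 * (1 / 5) ^ 2 * (n : ℝ) / ((r1 : ℝ) - 1) ≤ -7 := by
          have hr1p : (0 : ℝ) < (r1 : ℝ) - 1 := by linarith
          have : (256 : ℝ) ≤ (n : ℝ) / ((r1 : ℝ) - 1) := by
            rw [le_div_iff₀ hr1p]
            linarith
          have h' : 2 * (1 / 5) ^ 2 * (n : ℝ) / ((r1 : ℝ) - 1) =
              2 / 25 * ((n : ℝ) / ((r1 : ℝ) - 1)) := by ring
          rw [h']
          linarith
        refine (Real.exp_le_exp.2 hx).trans ?_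
        rw [Real.exp_neg, one_div]
        apply inv_anti₀ (by norm_num)
        have h7 : Real.exp 7 = Real.exp 1 ^ 7 := by
          rw [← Real.exp_nat_mul]
          norm_num
        rw [h7]
        have h8 : (2.7 : ℝ) ≤ Real.exp 1 := by
          have := Real.exp_one_gt_d9
          linarith
        calc (1000 : ℝ) ≤ 2.7 ^ 7 := by norm_num
          _ ≤ Real.exp 1 ^ 7 := pow_le_pow_left₀ (by norm_num) h8 7
      have hk : (S.card : ℝ) ≤ q := by
        rw [hS]
        exact sqrt_nat_le n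
      exact mul_le_mul hk hexp (Real.exp_pos _).le (by linarith)
  have e7 : Pr (fun G : SimpleGraph (Fin n) => 0.015 * q ≤ ((ctd S ρ G r1 r2).card : ℝ)) ≤
      7 / 100 := by
    refine (Pr_markov (fun G => ((ctd S ρ G r1 r2).card : ℝ)) (fun G => by positivity) (0.015 * q)
      (by linarith)).trans ?_
    rw [div_le_iff₀ (by linarith)]
    linarith
  have e1' : Pr (fun G : SimpleGraph (Fin n) => ¬ PRev C G) ≤ 1 / 100 := by
    refine e1.trans ?_
    rw [pow_one]
    apply one_div_le_one_div_of_le (by norm_num)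
    linarith
  have e2' : Pr (fun G : SimpleGraph (Fin n) => ¬ SEok G) ≤ 1 / 100 := by
    refine (Pr_mono fun G hG => ?_).trans e2
    unfold SEok at hG
    push Not at hG
    exact hG
  have e3' : Pr (fun G : SimpleGraph (Fin n) => ¬ HEok S G) ≤ 1 / 200 := by
    refine (Pr_mono fun G hG => ?_).trans e3
    unfold HEok at hG
    push Not at hG
    exact hG
  have key : Pr (fun G => ¬ Succ ρ (plant G S) S) ≤
      Pr (fun G : SimpleGraph (Fin n) => ¬ PRev C G) +
      (Pr (fun G : SimpleGraph (Fin n) => ¬ SEok G) +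
      (Pr (fun G : SimpleGraph (Fin n) => ¬ HEok S G) +
      (Pr (fun G => ¬ ∀ t, rr S ρ t G = r1 → (g (-32) - 1 / 1000) * √(n : ℝ) ≤
        (((SS S ρ t G).filter (fun a => -32 ≤ zz S ρ t G a)).card : ℝ)) +
      Pr (fun G : SimpleGraph (Fin n) => 0.015 * q ≤ ((ctd S ρ G r1 r2).card : ℝ))))) := by
    refine (Pr_mono (F := fun G => ¬ PRev C G ∨ (¬ SEok G ∨ (¬ HEok S G ∨
      ((¬ ∀ t, rr S ρ t G = r1 → (g (-32) - 1 / 1000) * √(n : ℝ) ≤
        (((SS S ρ t G).filter (fun a => -32 ≤ zz S ρ t G a)).card : ℝ)) ∨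
      0.015 * q ≤ ((ctd S ρ G r1 r2).card : ℝ))))) fun G hG => ?_).trans ?_
    · by_contra hcon
      simp only [not_or, not_not] at hcon
      obtain ⟨c1, c2, c3, c4, c5⟩ := hcon
      apply hG
      apply e5 G hS hρ c1 c2 c3 _ (not_le.1 c5)
      intro t ht
      refine le_trans ?_ (c4 t ht)
      apply mul_le_mul_of_nonneg_right _ (by linarith)
      linarith
    · refine (Pr_or_le _ _).trans (add_le_add le_rfl ?_)
      refine (Pr_or_le _ _).trans (add_le_add le_rfl ?_)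
      refine (Pr_or_le _ _).trans (add_le_add le_rfl ?_)
      exact Pr_or_le _ _
  rw [Pr_not] at key
  have e4' := e4
  linarith

end

end W305.PK
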