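import Pool.Agent.W841.PK.Stm2

/-! Late removals of planted vertices. -/

set_option autoImplicit false

namespace W305.PK

open Finset W841.PK
open scoped Classical symmDiff

noncomputable section

theorem xlogx {y c : ℝ} (hy : 0 < y) (hy1 : y ≤ 1) (hc : 1 ≤ c) :
    y * (c - Real.log y) ≤ c := by
  have h1 : - Real.log y ≤ 1 / y - 1 := by
    rw [← Real.log_inv]
    have := Real.log_le_sub_one_of_pos (inv_pos.2 hy)
    rw [one_div]
    exact this
  have h2 : y * (- Real.log y) ≤ 1 - y := by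
    calc y * (- Real.log y) ≤ y * (1 / y - 1) := mul_le_mul_of_nonneg_left h1 hy.le
      _ = 1 - y := by field_simp
  nlinarith

theorem entropy_bound {n r : ℝ} (hn : 0 < n) (hr : 0 < r) (h : r ≤ n / 256) :
    r * (1 + Real.log (n / r) + 1 / 100) ≤ 0.0256063 * n := by
  have hl : Real.log (n / r) = 8 * Real.log 2 - Real.log (256 * r / n) := by
    rw [← Real.log_rpow (by norm_num : (0 : ℝ) < 2), ← Real.log_div (by positivity) (by positivity)]
    congr 1
    norm_num
    field_simp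
  have h2 := Real.log_two_lt_d9
  have h3 := Real.log_two_gt_d9
  have hy : 256 * r / n ≤ 1 := by
    rw [div_le_one hn]
    linarith
  have h4 := xlogx (y := 256 * r / n) (c := 1 + 8 * Real.log 2 + 1 / 100) (by positivity) hy
    (by linarith)
  have h5 : r * (1 + Real.log (n / r) + 1 / 100) =
      n / 256 * (256 * r / n * (1 + 8 * Real.log 2 + 1 / 100 - Real.log (256 * r / n))) := by
    rw [hl]
    field_simp
    ring
  rw [h5]
  calc n / 256 * (256 * r / n * (1 + 8 * Real.log 2 + 1 / 100 - Real.log (256 * r / n))) ≤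
      n / 256 * (1 + 8 * Real.log 2 + 1 / 100) :=
        mul_le_mul_of_nonneg_left h4 (by positivity)
    _ ≤ n / 256 * (1 + 8 * 0.6931471808 + 1 / 100) := by
        apply mul_le_mul_of_nonneg_left _ (by positivity)
        linarith
    _ ≤ 0.0256063 * n := by
        have : (1 + 8 * 0.6931471808 + 1 / 100 : ℝ) / 256 ≤ 0.0256063 := by norm_num
        nlinarith

theorem ss_le {n : ℕ} (S : Finset (Fin n)) (ρ : Rule n) (t : ℕ) (G : SimpleGraph (Fin n)) :
    ss S ρ t G ≤ S.card := card_le_card inter_subset_right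

theorem sqrt_nat_le (n : ℕ) : ((Nat.sqrt n : ℕ) : ℝ) ≤ √(n : ℝ) := by
  apply Real.le_sqrt_of_sq_le
  have := Nat.sqrt_le' n
  exact_mod_cast this

theorem log_small (K : ℝ) : ∃ n0 : ℕ, ∀ n : ℕ, n0 ≤ n → K * Real.log n ≤ √(n : ℝ) := by
  by_cases hK : K ≤ 0
  · refine ⟨1, fun n hn => ?_⟩
    have h1 : (1 : ℝ) ≤ n := by exact_mod_cast hn
    have : 0 ≤ Real.log n := Real.log_nonneg h1
    nlinarith [Real.sqrt_nonneg (n : ℝ)]
  · push Not at hK
    have h := isLittleO_log_rpow_atTop (r := 1 / 2) (by norm_num)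
    have h2 := h.def (c := 1 / K) (by positivity)
    have h3 := (tendsto_natCast_atTop_atTop (R := ℝ)).eventually h2
    obtain ⟨n0, h0⟩ := Filter.eventually_atTop.1 h3
    refine ⟨max n0 1, fun n hn => ?_⟩
    have h4 := h0 n (le_trans (le_max_left _ _) hn)
    have h1 : (1 : ℝ) ≤ n := by exact_mod_cast le_trans (le_max_right _ _) hn
    rw [Real.norm_of_nonneg (Real.log_nonneg h1), Real.norm_of_nonneg (by positivity),
      ← Real.sqrt_eq_rpow] at h4
    calc K * Real.log n ≤ K * (1 / K * √(n : ℝ)) := mul_le_mul_of_nonneg_left h4 hK.le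
      _ = √(n : ℝ) := by field_simp

theorem killthr (hb : S_Basic) : S_KillThr := by
  intro C hC
  obtain ⟨n1, h1⟩ := log_small (101 * 10 ^ 6 * C ^ 2)
  refine ⟨max n1 (10 ^ 8), fun n hn S ρ t G hS hρ hPR hSE ht hw hr1 hr2 hs => ?_⟩
  obtain ⟨-, -, -, hpl, -⟩ := hb n S ρ t G hρ
  obtain ⟨-, -, -, -, hX⟩ := hpl ht hw
  have hlog := h1 n (le_trans (le_max_left _ _) hn)
  have hn8 : (10 : ℝ) ^ 8 ≤ n := by exact_mod_cast le_trans (le_max_right _ _) hn
  set q : ℝ := √(n : ℝ) with hq
  have hq4 : (10 : ℝ) ^ 4 ≤ q := by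
    apply Real.le_sqrt_of_sq_le
    linarith
  have hqn : q ^ 2 = n := Real.sq_sqrt (by positivity)
  have hnpos : (0 : ℝ) < n := by linarith
  have hlog0 : 0 ≤ Real.log n := Real.log_nonneg (by linarith)
  set r : ℝ := (rr S ρ t G : ℝ) with hr
  set s : ℝ := (ss S ρ t G : ℝ) with hs'
  have hr100 : (100 : ℝ) ≤ r := by linarith
  have hrpos : 0 < r := by linarith
  have hsq : s ≤ q := by
    have : s ≤ ((Nat.sqrt n : ℕ) : ℝ) := by
      rw [hs', ← hS]
      exact_mod_cast ss_le S ρ t G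
    exact this.trans (sqrt_nat_le n)
  have hspos : 0 < s := by linarith
  set v := ww S ρ t G with hv
  have hXs : Xs S ρ t G v = Xn S ρ t G v := by
    unfold Xs
    rw [if_pos hw]
  rw [hXs] at hX
  -- average
  have hsum : r * (Xn S ρ t G v + s - 1) ≤ ∑ a ∈ NN S ρ t G, Xt S ρ t G a := by
    have : ∑ _a ∈ NN S ρ t G, (Xn S ρ t G v + s - 1) ≤ ∑ a ∈ NN S ρ t G, Xt S ρ t G a :=
      Finset.sum_le_sum fun a ha => hX a ha
    rw [Finset.sum_const, nsmul_eq_mul] at this
    exact this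
  have hsplit : ∑ a ∈ NN S ρ t G, Xt S ρ t G a =
      ∑ a ∈ NN S ρ t G, ∑ b ∈ NN S ρ t G, ee G a b +
      ∑ a ∈ NN S ρ t G, ∑ b ∈ SS S ρ t G, ee G a b := by
    rw [← Finset.sum_add_distrib]
    refine Finset.sum_congr rfl fun a _ => ?_
    unfold Xt
    rw [← SS_union_NN, Finset.sum_union (disjoint_SS_NN S ρ t G)]
    ring
  have hcN : (((NN S ρ t G).card : ℕ) : ℝ) = r := rfl
  have hcS : (((SS S ρ t G).card : ℕ) : ℝ) = s := rfl
  have hN := hSE (NN S ρ t G) (by rw [hcN]; linarith)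
  rw [hcN] at hN
  have hP := le_trans (le_abs_self _) (hPR (NN S ρ t G) (SS S ρ t G))
  rw [hcN, hcS] at hP
  -- first term
  have hent := entropy_bound hnpos hrpos hr2
  have hfirst : √(r * (1 + Real.log (n / r) + 1 / 100)) ≤ 0.16003 * q := by
    apply Real.sqrt_le_iff.2
    constructor
    · positivity
    · rw [mul_pow, hqn]
      refine hent.trans ?_
      apply mul_le_mul_of_nonneg_right _ hnpos.le
      norm_num
  -- second term
  have hsecond : C * √(r * s * (r + s) * Real.log n) ≤ r * (0.001 * q) := by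
    have h2 : √(r * s * (r + s) * Real.log n) ≤ r * √(101 * q * Real.log n) := by
      have h6 : √(r ^ 2 * (101 * q * Real.log n)) = r * √(101 * q * Real.log n) := by
        rw [Real.sqrt_mul (by positivity) (101 * q * Real.log n), Real.sqrt_sq hrpos.le]
      rw [← h6]
      apply Real.sqrt_le_sqrt
      have h3 : r * s * (r + s) ≤ r ^ 2 * (101 * q) := by
        have h4 : r + s ≤ 101 * r := by linarith
        calc r * s * (r + s) ≤ r * q * (101 * r) := by
              apply mul_le_mul _ h4 (by positivity) (by positivity)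
              exact mul_le_mul_of_nonneg_left hsq hrpos.le
          _ = r ^ 2 * (101 * q) := by ring
      calc r * s * (r + s) * Real.log n ≤ r ^ 2 * (101 * q) * Real.log n :=
            mul_le_mul_of_nonneg_right h3 hlog0
        _ = _ := by ring
    have h5 : C * √(101 * q * Real.log n) ≤ 0.001 * q := by
      have : √(101 * q * Real.log n) ≤ 0.001 * q / C := by
        apply Real.sqrt_le_iff.2
        constructor
        · positivity
        · rw [div_pow, le_div_iff₀ (by positivity)]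
          calc 101 * q * Real.log n * C ^ 2 = 10 ^ (-6 : ℤ) * q * (101 * 10 ^ 6 * C ^ 2 * Real.log n)
                := by
                  rw [show ((10 : ℝ) ^ (-6 : ℤ)) = 1 / 10 ^ 6 by norm_num]
                  ring
            _ ≤ 10 ^ (-6 : ℤ) * q * q := mul_le_mul_of_nonneg_left hlog (by positivity)
            _ = (0.001 * q) ^ 2 := by
                  rw [show ((10 : ℝ) ^ (-6 : ℤ)) = 1 / 10 ^ 6 by norm_num]
                  ring
      calc C * √(101 * q * Real.log n) ≤ C * (0.001 * q / C) :=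
            mul_le_mul_of_nonneg_left this (by linarith)
        _ = 0.001 * q := by field_simp
    calc C * √(r * s * (r + s) * Real.log n) ≤ C * (r * √(101 * q * Real.log n)) :=
          mul_le_mul_of_nonneg_left h2 (by linarith)
      _ = r * (C * √(101 * q * Real.log n)) := by ring
      _ ≤ r * (0.001 * q) := mul_le_mul_of_nonneg_left h5 hrpos.le
  have hN2 : 2 * r * √(r * (1 + Real.log (n / r) + 1 / 100)) ≤ r * (0.32006 * q) := by
    calc 2 * r * √(r * (1 + Real.log (n / r) + 1 / 100)) ≤ 2 * r * (0.16003 * q) :=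
          mul_le_mul_of_nonneg_left hfirst (by positivity)
      _ = r * (0.32006 * q) := by ring
  have hall : r * (Xn S ρ t G v + s - 1) ≤ r * (0.32106 * q) := by
    calc r * (Xn S ρ t G v + s - 1) ≤ _ := hsum
      _ = _ := hsplit
      _ ≤ r * (0.32006 * q) + r * (0.001 * q) := add_le_add (hN.trans hN2) (hP.trans hsecond)
      _ = r * (0.32106 * q) := by ring
  have hXn : Xn S ρ t G v + s - 1 ≤ 0.32106 * q := le_of_mul_le_mul_left hall hrpos
  have hXn2 : Xn S ρ t G v ≤ -(0.208 * q) := by linarith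
  have hfin : q / r * Xn S ρ t G v ≤ -(0.208 * n / r) := by
    calc q / r * Xn S ρ t G v ≤ q / r * (-(0.208 * q)) :=
          mul_le_mul_of_nonneg_left hXn2 (by positivity)
      _ = -(0.208 * q ^ 2 / r) := by ring
      _ = _ := by rw [hqn]
  refine hfin.trans ?_
  have hr1' : 0 < r - 1 := by linarith
  rw [show -(1 / 5) * (n : ℝ) / (r - 1) = -((1 / 5) * n / (r - 1)) by ring, neg_le_neg_iff,
    div_le_div_iff₀ hr1' hrpos]
  nlinarith

theorem endkill (hb : S_Basic) : S_EndKill := by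
  refine ⟨1000, fun n hn S ρ t G hS hρ hHE ht hw hr1 hr2 => ?_⟩
  by_contra hs
  push Not at hs
  obtain ⟨-, -, -, hpl, -⟩ := hb n S ρ t G hρ
  obtain ⟨-, -, -, -, hX⟩ := hpl ht hw
  have hn3 : (1000 : ℝ) ≤ n := by exact_mod_cast hn
  set q : ℝ := √(n : ℝ) with hq
  have hq30 : (30 : ℝ) ≤ q := by
    apply Real.le_sqrt_of_sq_le
    norm_num
    linarith
  have hne : (NN S ρ t G).Nonempty := by
    rw [← Finset.card_pos]
    exact hr1
  obtain ⟨a, ha⟩ := hne
  have haS : a ∉ S := (mem_sdiff.1 ha).2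
  have h1 := hX a ha
  have hXs : Xs S ρ t G (ww S ρ t G) = Xn S ρ t G (ww S ρ t G) := by
    unfold Xs
    rw [if_pos hw]
  rw [hXs] at h1
  have habs : ∀ (T : Finset (Fin n)) (c : Fin n), |∑ b ∈ T, ee G c b| ≤ (T.card : ℝ) := by
    intro T c
    refine (abs_sum_le_sum_abs _ _).trans ?_
    calc ∑ b ∈ T, |ee G c b| ≤ ∑ _b ∈ T, (1 : ℝ) := Finset.sum_le_sum fun b _ => abs_ee_le G c b
      _ = T.card := by simp
  have hXn : -(rr S ρ t G : ℝ) ≤ Xn S ρ t G (ww S ρ t G) := (abs_le.1 (habs _ _)).1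
  have hNa : ∑ b ∈ NN S ρ t G, ee G a b ≤ (rr S ρ t G : ℝ) := (abs_le.1 (habs _ _)).2
  have hXt : Xt S ρ t G a = ∑ b ∈ NN S ρ t G, ee G a b + ∑ b ∈ SS S ρ t G, ee G a b := by
    unfold Xt
    rw [← SS_union_NN, Finset.sum_union (disjoint_SS_NN S ρ t G)]
    ring
  have hSu : ∑ b ∈ S, ee G a b = ∑ b ∈ SS S ρ t G, ee G a b + ∑ b ∈ S \ SS S ρ t G, ee G a b := by
    rw [← Finset.sum_union]
    · refine Finset.sum_congr ?_ fun _ _ => rfl
      rw [Finset.union_sdiff_of_subset]
      exact inter_subset_right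
    · exact disjoint_sdiff
  have hrem : -(((S \ SS S ρ t G).card : ℕ) : ℝ) ≤ ∑ b ∈ S \ SS S ρ t G, ee G a b :=
    (abs_le.1 (habs _ _)).1
  have hcard : (((S \ SS S ρ t G).card : ℕ) : ℝ) = (S.card : ℝ) - (ss S ρ t G : ℝ) := by
    rw [Finset.cast_card_sdiff (show SS S ρ t G ⊆ S from inter_subset_right)]
    rfl
  have hSk : (S.card : ℝ) ≤ q := by
    rw [hS]
    exact sqrt_nat_le n
  have hHa := (abs_le.1 (hHE a haS)).2
  rw [hXt] at h1
  linarith

end

end W305.PK
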