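import Pool.Agent.W305.PK.Basic

/-! What the history determines. -/

set_option autoImplicit false

namespace W305.PK

open Finset W841.PK
open scoped Classical symmDiff

noncomputable section

variable {n : ℕ}

section

variable {S : Finset (Fin n)} {ρ : Rule n} {t : ℕ} {G G' : SimpleGraph (Fin n)}

theorem ww_congr {i : ℕ} (hi : i ≤ t) (h : SameHist S ρ t G G') : ww S ρ i G = ww S ρ i G' := by
  unfold ww
  rw [(h i hi).2, (h i hi).1]

theorem RR_congr {i : ℕ} (hi : i ≤ t) (h : SameHist S ρ t G G') : RR S ρ i G = RR S ρ i G' :=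
  (h i hi).1

theorem RR_congr_succ {i : ℕ} (hi : i ≤ t) (h : SameHist S ρ t G G') :
    RR S ρ (i + 1) G = RR S ρ (i + 1) G' := by
  rw [RR_succ, RR_succ, RR_congr hi h, ww_congr hi h]

theorem dg_erase {H : SimpleGraph (Fin n)} {R : Finset (Fin n)} {a b : Fin n} (hb : b ∈ R)
    (ha : a ∈ R.erase b) :
    dg H R a = dg H (R.erase b) a + (if H.Adj a b then 1 else 0) := by
  unfold dg
  rw [if_pos ha, if_pos (mem_of_mem_erase ha), Finset.card_filter, Finset.card_filter,
    Finset.sum_erase_add _ _ hb]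

theorem dg_congr {i : ℕ} (hi : i ≤ t) (h : SameHist S ρ t G G') (a : Fin n) :
    dg (plant G S) (RR S ρ i G) a = dg (plant G' S) (RR S ρ i G') a := by
  exact congrFun (h i hi).2 a

theorem ee_congr (hρ : IsRule ρ) (h : SameHist S ρ t G G') {i : ℕ} (hi : i < t) {a : Fin n}
    (ha : a ∈ RR S ρ (i + 1) G) (hS : ¬ (a ∈ S ∧ ww S ρ i G ∈ S)) :
    ee G a (ww S ρ i G) = ee G' a (ww S ρ i G) := by
  have haR : a ∈ RR S ρ i G := RR_anti S ρ G (Nat.le_succ i) ha
  have hb := ww_mem S ρ i G hρ ⟨a, haR⟩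
  have ha' : a ∈ (RR S ρ i G).erase (ww S ρ i G) := by
    rw [← RR_succ]
    exact ha
  have hne : a ≠ ww S ρ i G := (mem_erase.1 ha').1
  have e1 := dg_erase (H := plant G S) hb ha'
  have e2 : dg (plant G' S) (RR S ρ i G') a = dg (plant G' S) ((RR S ρ i G').erase (ww S ρ i G')) a
      + (if (plant G' S).Adj a (ww S ρ i G') then 1 else 0) := by
    apply dg_erase
    · rw [← RR_congr hi.le h, ← ww_congr hi.le h]
      exact hb
    · rw [← RR_congr hi.le h, ← ww_congr hi.le h]
      exact ha'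
  rw [← RR_succ] at e1 e2
  rw [dg_congr hi.le h a] at e1
  have e5 : dg (plant G S) (RR S ρ (i + 1) G) a = dg (plant G' S) (RR S ρ (i + 1) G') a :=
    dg_congr (Nat.succ_le_of_lt hi) h a
  rw [e5] at e1
  rw [← ww_congr hi.le h] at e2
  have e3 : (if (plant G S).Adj a (ww S ρ i G) then (1 : ℕ) else 0) =
      if (plant G' S).Adj a (ww S ρ i G) then 1 else 0 := by
    omega
  have p : ∀ K : SimpleGraph (Fin n), (plant K S).Adj a (ww S ρ i G) ↔ K.Adj a (ww S ρ i G) := by
    intro K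
    unfold plant
    constructor
    · rintro ⟨_, h | h⟩
      · exact h
      · exact absurd h hS
    · intro h
      exact ⟨hne, Or.inl h⟩
  have e4 : G.Adj a (ww S ρ i G) ↔ G'.Adj a (ww S ρ i G) := by
    rw [← p G, ← p G']
    by_cases h1 : (plant G S).Adj a (ww S ρ i G) <;> by_cases h2 : (plant G' S).Adj a (ww S ρ i G)
    · exact ⟨fun _ => h2, fun _ => h1⟩
    · rw [if_pos h1, if_neg h2] at e3
      exact absurd e3 (by norm_num)
    · rw [if_neg h1, if_pos h2] at e3
      exact absurd e3 (by norm_num)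
    · exact ⟨fun h => absurd h h1, fun h => absurd h h2⟩
  unfold ee
  simp only [e4]

theorem Xt_congr (h : SameHist S ρ t G G') {a : Fin n} (ha : a ∈ RR S ρ t G) (haS : a ∉ S) :
    Xt S ρ t G a = Xt S ρ t G' a := by
  rw [Xt_deg S ρ t G ha haS, Xt_deg S ρ t G' (by rw [← RR_congr le_rfl h]; exact ha) haS,
    dg_congr le_rfl h a, RR_congr le_rfl h]

theorem NN_congr (h : SameHist S ρ t G G') : NN S ρ t G = NN S ρ t G' := by
  unfold NN
  rw [RR_congr le_rfl h]

theorem SS_congr (h : SameHist S ρ t G G') : SS S ρ t G = SS S ρ t G' := by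
  unfold SS
  rw [RR_congr le_rfl h]

theorem rr_congr (h : SameHist S ρ t G G') : rr S ρ t G = rr S ρ t G' := by
  unfold rr
  rw [NN_congr h]

theorem Xb_congr (h : SameHist S ρ t G G') : Xb S ρ t G = Xb S ρ t G' := by
  unfold Xb
  rw [rr_congr h, ← NN_congr h]
  congr 1
  refine Finset.sum_congr rfl fun a ha => ?_
  exact Xt_congr h (NN_sub S ρ t G ha) (mem_sdiff.1 ha).2

theorem removed {b : Fin n} (hb : b ∉ RR S ρ t G) :
    ∃ i < t, b = ww S ρ i G := by
  induction t with
  | zero => exact absurd (mem_univ b) (by rwa [RR_zero] at hb)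
  | succ t ih =>
    by_cases h : b ∈ RR S ρ t G
    · refine ⟨t, Nat.lt_succ_self t, ?_⟩
      by_contra hne
      exact hb (by rw [RR_succ]; exact mem_erase.2 ⟨hne, h⟩)
    · obtain ⟨i, hi, rfl⟩ := ih h
      exact ⟨i, by omega, rfl⟩

theorem Xs_congr (hρ : IsRule ρ) (h : SameHist S ρ t G G') {a : Fin n} (ha : a ∈ RR S ρ t G) :
    Xs S ρ t G a = Xs S ρ t G' a := by
  have ha' : a ∈ RR S ρ t G' := by rw [← RR_congr le_rfl h]; exact ha
  by_cases haS : a ∈ S
  · unfold Xs
    rw [if_pos haS, if_pos haS, Xn_deg S ρ t G ha haS, Xn_deg S ρ t G' ha' haS,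
      dg_congr le_rfl h a, rr_congr h]
    unfold ss
    rw [SS_congr h]
  · have gen : ∀ K : SimpleGraph (Fin n), Xs S ρ t K a =
        Xt S ρ t K a + ∑ b ∈ S \ RR S ρ t K, ee K a b := by
      intro K
      unfold Xs Xt Xn
      rw [if_neg haS]
      have h1 : ∑ b ∈ RR S ρ t K, ee K a b = ∑ b ∈ SS S ρ t K, ee K a b +
          ∑ b ∈ NN S ρ t K, ee K a b := by
        rw [← SS_union_NN, Finset.sum_union (disjoint_SS_NN S ρ t K)]
      have h2 : ∑ b ∈ S, ee K a b = ∑ b ∈ SS S ρ t K, ee K a b +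
          ∑ b ∈ S \ RR S ρ t K, ee K a b := by
        rw [← Finset.sum_union]
        · refine Finset.sum_congr ?_ fun _ _ => rfl
          ext b
          simp only [SS, mem_union, mem_inter, mem_sdiff]
          tauto
        · rw [Finset.disjoint_left]
          intro b hb hb'
          exact (mem_sdiff.1 hb').2 (mem_inter.1 hb).1
      rw [h1, h2]
      ring
    rw [gen G, gen G', Xt_congr h ha haS, ← RR_congr le_rfl h]
    congr 1
    refine Finset.sum_congr rfl fun b hb => ?_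
    obtain ⟨i, hi, rfl⟩ := removed (mem_sdiff.1 hb).2
    exact ee_congr hρ h hi (RR_anti S ρ G (Nat.succ_le_of_lt hi) ha) (fun h' => haS h'.1)

theorem cc_step (hρ : IsRule ρ) (h : SameHist S ρ t G G') (hc : cc S ρ t G = cc S ρ t G') :
    cc S ρ (t + 1) G = cc S ρ (t + 1) G' := by
  show cc S ρ t G + (if ww S ρ t G ∈ S then 0 else _) =
    cc S ρ t G' + (if ww S ρ t G' ∈ S then 0 else _)
  rw [hc, ← ww_congr le_rfl h]
  congr 1
  split_ifs with hw
  · rfl
  · rw [← Xb_congr h, ← rr_congr h]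
    have : Xt S ρ t G (ww S ρ t G) = Xt S ρ t G' (ww S ρ t G) := by
      rcases (RR S ρ t G).eq_empty_or_nonempty with he | hne
      · unfold Xt
        rw [← RR_congr le_rfl h, he]
        simp
      · exact Xt_congr h (ww_mem S ρ t G hρ hne) hw
    rw [this]

theorem cc_congr (hρ : IsRule ρ) : ∀ {t : ℕ}, SameHist S ρ t G G' → cc S ρ t G = cc S ρ t G'
  | 0, _ => rfl
  | t + 1, h => cc_step hρ (h.le (Nat.le_succ t)) (cc_congr hρ (h.le (Nat.le_succ t)))

end

theorem measp : S_MeasP := by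
  intro n S ρ t G G' hρ h
  refine ⟨fun i hi => h.le hi, RR_congr le_rfl h, ww_congr le_rfl h, RR_congr_succ le_rfl h,
    fun i hi a ha hS => ee_congr hρ h hi ha hS, fun a ha haS => Xt_congr h ha haS,
    fun a ha => Xs_congr hρ h ha, Xb_congr h, cc_congr hρ h, cc_step hρ h (cc_congr hρ h),
    fun a ha => ?_⟩
  unfold zz
  rw [rr_congr h, Xs_congr hρ h ha, cc_congr hρ h]

end

end W305.PK
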