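import Pool.Agent.W305.PK.Basic

/-! Evolution of the positions. -/

set_option autoImplicit false

namespace W305.PK

open Finset W841.PK
open scoped Classical symmDiff

noncomputable section

variable {n : ℕ}

theorem zstep (hB : S_Basic) : S_ZStep := by
  intro n S ρ t G hρ ht
  obtain ⟨_, hwR, hnon, hpl, _⟩ := hB n S ρ t G hρ
  constructor
  · intro hw hr a ha
    obtain ⟨hwN, hNN, hrr, hSS, -, -⟩ := hnon ht hw
    have hXn : ∀ b, Xn S ρ (t + 1) G b = Xn S ρ t G b - ee G b (ww S ρ t G) := by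
      intro b
      unfold Xn
      rw [hNN, ← Finset.sum_erase_add _ _ hwN]
      ring
    have hXs : ∀ b, Xs S ρ (t + 1) G b = Xs S ρ t G b - ee G b (ww S ρ t G) := by
      intro b
      unfold Xs
      split_ifs
      · exact hXn b
      · rw [hXn b]
        ring
    have hrR : (rr S ρ (t + 1) G : ℝ) = (rr S ρ t G : ℝ) - 1 := by
      have : ((rr S ρ (t + 1) G + 1 : ℕ) : ℝ) = (rr S ρ t G : ℝ) := by rw [hrr]
      push_cast at this
      linarith
    have hcc : cc S ρ (t + 1) G = cc S ρ t G +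
        √(n : ℝ) * (Xt S ρ t G (ww S ρ t G) - Xb S ρ t G) /
          ((rr S ρ t G : ℝ) * ((rr S ρ t G : ℝ) - 1)) := by
      show cc S ρ t G + (if ww S ρ t G ∈ S then 0 else _) = _
      rw [if_neg hw]
    have hr2 : (2 : ℝ) ≤ (rr S ρ t G : ℝ) := by exact_mod_cast hr
    have hr0 : (rr S ρ t G : ℝ) ≠ 0 := by linarith
    have hr1 : (rr S ρ t G : ℝ) - 1 ≠ 0 := by linarith
    unfold zz hh mu
    rw [hXs, hcc, hrR]
    field_simp
    ring
  · intro hw a
    obtain ⟨hwS, hSS, hNN, hrr, -⟩ := hpl ht hw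
    have hXs : Xs S ρ (t + 1) G a = Xs S ρ t G a := by
      unfold Xs Xn
      rw [hNN]
    have hcc : cc S ρ (t + 1) G = cc S ρ t G := by
      show cc S ρ t G + (if ww S ρ t G ∈ S then 0 else _) = _
      rw [if_pos hw, add_zero]
    unfold zz
    rw [hXs, hcc, hrr]

end

end W305.PK
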